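import Pool.Agent.Y485.OR.If

set_option autoImplicit false

/-!
# Cayley graphs of nonnegative Ollivier-Ricci curvature: exactly the virtually abelian groups

The groups which have a finite symmetric generating set whose Cayley graph has nonnegative
Ollivier-Ricci curvature are exactly the finitely generated virtually abelian groups. In particular
the Heisenberg group has no such generating set.

That a group with such a generating set is virtually abelian is proved with the splitting theory of
the starting library for transitive graphs (`Pool/Agent/TH595`), also for lazy walks. Conversely, let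
`A` be an abelian normal subgroup of finite index. Take two elements in each nontrivial coset of `A`,
in a way stable under inversion, and a finite subset `B` of `A` without the identity, stable under
inversion and under conjugation, which contains the products of few of the chosen elements which lie
in `A`. For each generator `s` there is a bijection `σ` of the generating set such that
`a⁻¹ s σ(a)` is a generator or the identity for every generator `a`.
-/

namespace Pool.Agent.Results.MP_d3a611_gt.ExactlyVirtuallyAbelian

open Pool.Agent.H141R3.Growth
open Pool.Agent.H141R3.Ollivier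
open Pool.Agent.Y485.OR
open scoped ENNReal

/-- (1) A group has a finite symmetric generating set, without the identity, whose Cayley graph has
nonnegative Ollivier-Ricci curvature on every edge, if and only if it is finitely generated and
virtually abelian. (2) If the curvature of the Cayley graph is nonnegative for some lazy simple
random walk, the group is virtually abelian. (3) Every Cayley graph of the discrete Heisenberg group
has an edge of negative curvature. -/
theorem result :
    (∀ (Γ : Type) [Group Γ],
      (∃ S : Finset Γ, (∀ s ∈ S, s⁻¹ ∈ S) ∧ (1 : Γ) ∉ S ∧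
        Subgroup.closure (S : Set Γ) = ⊤ ∧
        ∀ x y, (cayley S).Adj x y → 0 ≤ curvature (cayley S) x y) ↔
      Group.FG Γ ∧ VirtAb Γ) ∧
    (∀ (Γ : Type) [Group Γ] (S : Finset Γ), (∀ s ∈ S, s⁻¹ ∈ S) → (1 : Γ) ∉ S →
      Subgroup.closure (S : Set Γ) = ⊤ → ∀ α : ℝ≥0∞, α < 1 → ∀ P : Γ → PMF Γ,
      IsLazyWalk (cayley S) α P → NonnegCurvature (cayley S) P → VirtAb Γ) ∧
    (∀ S : Finset Heis, (∀ s ∈ S, s⁻¹ ∈ S) → (1 : Heis) ∉ S →
      Subgroup.closure (S : Set Heis) = ⊤ →
      ∃ x y, (cayley S).Adj x y ∧ curvature (cayley S) x y < 0) := by
  refine ⟨fun Γ _ => ⟨?_, ?_⟩, ?_, ?_⟩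
  · rintro ⟨S, h1, h2, h3, h4⟩
    exact ⟨⟨⟨S, h3⟩⟩, virtAb_of_curv' h1 h2 h3 h4⟩
  · rintro ⟨hfg, hv⟩
    exact exists_cayley hv
  · intro Γ _ S h1 h2 h3 α hα P hP hκ
    exact virtAb_of_curv h1 h2 h3 hα hP hκ
  · intro S h1 h2 h3
    by_contra hcon
    push Not at hcon
    exact not_virtAb_heis (virtAb_of_curv' h1 h2 h3 hcon)

end Pool.Agent.Results.MP_d3a611_gt.ExactlyVirtuallyAbelian
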